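import Pool.Agent.Helper58.GC.Defs

/-!
# Basic facts for the cohomology-free core
-/

set_option autoImplicit false

namespace Pool.Agent.Helper58.GC

open Pool.Agent.Helper25.EC Pool.Agent.Helper59.EC Finset

variable {p : ℕ} {K G P Q : Type} [Field K] [Group G] [MulSemiringAction G K] [Group P] [Group Q]

theorem smul_mu (hp : 0 < p) {ζ : K} (hζ : IsPrimitiveRoot ζ p) (hζG : ∀ g : G, g • ζ = ζ) {y : K}
    (hy : y ^ p = 1) (g : G) : g • y = y := by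
  have : NeZero p := ⟨hp.ne'⟩
  obtain ⟨i, -, rfl⟩ := hζ.eq_pow_of_pow_eq_one hy
  rw [smul_pow', hζG]

theorem smul_zeta_pow {ζ : K} (hζG : ∀ g : G, g • ζ = ζ) (g : G) (i : ℕ) :
    g • ζ ^ i = ζ ^ i := by rw [smul_pow', hζG]

section index

variable {ζ β : K} {U : Subgroup G}

theorem exists_idx (hp : 0 < p) (hζ : IsPrimitiveRoot ζ p) (hβ0 : β ≠ 0)
    (hβ : ∀ g ∈ U, g • (β ^ p) = β ^ p) {g : G} (hg : g ∈ U) :
    ∃ i < p, g • β = ζ ^ i * β := by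
  have : NeZero p := ⟨hp.ne'⟩
  have h1 : (g • β / β) ^ p = 1 := by
    rw [div_pow, ← smul_pow', hβ g hg, div_self (pow_ne_zero _ hβ0)]
  obtain ⟨i, hi, h2⟩ := hζ.eq_pow_of_pow_eq_one h1
  exact ⟨i, hi, by rw [h2]; field_simp⟩

theorem idx_unique (hζ : IsPrimitiveRoot ζ p) (hβ0 : β ≠ 0) {g : G} {i j : ℕ} (hi : i < p)
    (hj : j < p) (h1 : g • β = ζ ^ i * β) (h2 : g • β = ζ ^ j * β) : i = j :=
  hζ.pow_inj hi hj (mul_right_cancel₀ hβ0 (h1.symm.trans h2))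

theorem idx_mul (hζG : ∀ g : G, g • ζ = ζ) {g h : G} {i j : ℕ} (h1 : g • β = ζ ^ i * β)
    (h2 : h • β = ζ ^ j * β) : (g * h) • β = ζ ^ (i + j) * β := by
  rw [mul_smul, h2, smul_mul', smul_zeta_pow hζG, h1, pow_add]; ring

theorem idx_pow (hζG : ∀ g : G, g • ζ = ζ) {τ : G} (hτβ : τ • β = ζ * β) (i : ℕ) :
    (τ ^ i) • β = ζ ^ i * β := by
  induction i with
  | zero => simp
  | succ n ih =>
    rw [pow_succ]
    exact idx_mul hζG ih (by rw [hτβ, pow_one])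

theorem idx_inv (hζG : ∀ g : G, g • ζ = ζ) (hζ0 : ζ ≠ 0) {g : G} {i : ℕ}
    (h : g • β = ζ ^ i * β) : g⁻¹ • β = (ζ ^ i)⁻¹ * β := by
  have h1 : g⁻¹ • (ζ ^ i * β) = β := by rw [← h, inv_smul_smul]
  rw [smul_mul', smul_zeta_pow hζG] at h1
  rw [eq_inv_mul_iff_mul_eq₀ (pow_ne_zero _ hζ0), h1]

/-- conjugates by `τ` of elements fixing `β` fix `β`. -/
theorem conj_fix (hζG : ∀ g : G, g • ζ = ζ) (hζ0 : ζ ≠ 0) {g u : G} {i : ℕ}
    (h : g • β = ζ ^ i * β) (hu : u • β = β) : (g⁻¹ * u * g) • β = β := by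
  rw [mul_smul, mul_smul, h, smul_mul', smul_zeta_pow hζG, hu, smul_mul', smul_zeta_pow hζG,
    idx_inv hζG hζ0 h, mul_inv_cancel_left₀ (pow_ne_zero _ hζ0)]

theorem conj_fix' (hζG : ∀ g : G, g • ζ = ζ) {g u : G} {i : ℕ} (hζ0 : ζ ≠ 0)
    (h : g • β = ζ ^ i * β) (hu : u • β = β) : (g * u * g⁻¹) • β = β := by
  have e : ∀ g : G, g • (ζ ^ i)⁻¹ = (ζ ^ i)⁻¹ := fun g => by
    rw [smul_inv'', smul_zeta_pow hζG]
  rw [mul_smul, mul_smul, idx_inv hζG hζ0 h, smul_mul', hu, e, smul_mul', h, e,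
    inv_mul_cancel_left₀ (pow_ne_zero _ hζ0)]

end index

/-- The identification `θ` extended by `1` to all of `P`. -/
noncomputable def th (π : P →* Q) (θ : π.ker →* Kˣ) (x : P) : K := by
  classical exact if h : x ∈ π.ker then (θ ⟨x, h⟩ : K) else 1

theorem th_of_mem {π : P →* Q} {θ : π.ker →* Kˣ} {x : P} (h : x ∈ π.ker) :
    th π θ x = (θ ⟨x, h⟩ : K) := by
  unfold th; rw [dif_pos h]

theorem th_coe {π : P →* Q} {θ : π.ker →* Kˣ} (z : π.ker) : th π θ (z : P) = (θ z : K) := by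
  rw [th_of_mem z.2]

theorem th_one {π : P →* Q} {θ : π.ker →* Kˣ} : th π θ 1 = 1 := by
  rw [th_of_mem (one_mem _)]
  have : (⟨1, one_mem _⟩ : π.ker) = 1 := rfl
  rw [this, map_one]; rfl

theorem th_mul {π : P →* Q} {θ : π.ker →* Kˣ} {x y : P} (hx : x ∈ π.ker) (hy : y ∈ π.ker) :
    th π θ (x * y) = th π θ x * th π θ y := by
  rw [th_of_mem hx, th_of_mem hy, th_of_mem (mul_mem hx hy), ← Units.val_mul, ← map_mul]
  rfl

theorem th_ne {π : P →* Q} {θ : π.ker →* Kˣ} (x : P) : th π θ x ≠ 0 := by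
  unfold th
  split_ifs
  · exact Units.ne_zero _
  · exact one_ne_zero

theorem th_pow {π : P →* Q} {θ : π.ker →* Kˣ} (hθp : ∀ z, θ z ^ p = 1) (x : P) :
    th π θ x ^ p = 1 := by
  unfold th
  split_ifs with h
  · rw [← Units.val_pow_eq_pow_val, hθp]; rfl
  · exact one_pow p

theorem th_inj {π : P →* Q} {θ : π.ker →* Kˣ} (hθ : Function.Injective θ) {x y : P}
    (hx : x ∈ π.ker) (hy : y ∈ π.ker) (h : th π θ x = th π θ y) : x = y := by
  rw [th_of_mem hx, th_of_mem hy] at h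
  have := hθ (Units.ext h)
  exact congrArg Subtype.val this

section lift

variable {f : G → P} {D : Subgroup G}

theorem map_one_of (h : ∀ σ ∈ D, ∀ τ ∈ D, f (σ * τ) = f σ * f τ) : f 1 = 1 := by
  have := h 1 (one_mem _) 1 (one_mem _)
  rw [mul_one] at this
  exact (mul_eq_left.mp this.symm)

theorem map_inv_of (h : ∀ σ ∈ D, ∀ τ ∈ D, f (σ * τ) = f σ * f τ) {σ : G} (hσ : σ ∈ D) :
    f σ⁻¹ = (f σ)⁻¹ := by
  have := h σ⁻¹ (inv_mem hσ) σ hσ
  rw [inv_mul_cancel, map_one_of h] at this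
  exact eq_inv_of_mul_eq_one_left this.symm

end lift

end Pool.Agent.Helper58.GC
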