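import Pool.Agent.Helper25.EC.Frame
import Pool.Agent.Helper59.EC.Defs

/-!
# The cohomology-free core of the Galois part: definitions (helper58)

Everything is in the action language of `Frame p K G`.  `D`, `U` are subgroups of `G`; the field
`K^D` is only used through the condition `∀ g ∈ D, g • x = x`.
-/

set_option autoImplicit false

namespace Pool.Agent.Helper58.GC

open Pool.Agent.Helper25.EC Pool.Agent.Helper59.EC

variable {K G P Q : Type} [Field K] [Group G] [TopologicalSpace G] [MulSemiringAction G K]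
  [Group P] [Group Q]

/-- `b` is a norm from `K^D[T]/(T^p - x)`. -/
def NR (p : ℕ) (D : Subgroup G) (x b : K) : Prop :=
  ∃ β : Fin p → K, (∀ k, ∀ g ∈ D, g • β k = β k) ∧ nrm p x β = b

/-- The homomorphism `ψ : G → Q` lifts on the subgroup `D` to a continuous homomorphism to `P`
(along `π : P → Q`). -/
def LiftOn (π : P →* Q) (ψ : G →* Q) (D : Subgroup G) : Prop :=
  ∃ (f : G → P) (N : Subgroup G), IsOpen (N : Set G) ∧
    (∀ σ ∈ D, ∀ τ ∈ D, f (σ * τ) = f σ * f τ) ∧ (∀ ν ∈ D, ν ∈ N → f ν = 1) ∧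
    ∀ σ ∈ D, π (f σ) = ψ σ

/-- The conjugate subgroup `g H g⁻¹`. -/
def cj (g : G) (H : Subgroup G) : Subgroup G := H.map (MulAut.conj g).toMonoidHom

/-- The norm Hasse principle for the family `H`. -/
def NLP (p : ℕ) (K : Type) {G : Type} [Field K] [Group G] [TopologicalSpace G]
    [MulSemiringAction G K] {ι : Type} (H : ι → Subgroup G) : Prop :=
  ∀ U : Subgroup G, IsOpen (U : Set G) → ∀ x b : K, x ≠ 0 → b ≠ 0 →
    (∀ g ∈ U, g • x = x) → (∀ g ∈ U, g • b = b) →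
    (∀ (i : ι) (g : G), NR p (U ⊓ cj g (H i)) x b) → NR p U x b

/-- The `H¹` condition for the family `H`. -/
def HOne (p : ℕ) {G : Type} [Group G] [TopologicalSpace G] {ι : Type}
    (H : ι → Subgroup G) : Prop :=
  ∀ χ : (i : ι) → (H i →* Multiplicative (ZMod p)), (∀ i, IsOpen ((χ i).ker : Set (H i))) →
    ∃! ψ : G →* Multiplicative (ZMod p), IsOpen (ψ.ker : Set G) ∧
      ∀ i, ∀ x : H i, ψ (x : G) = χ i x

/-- A cochain pair `(s, d)` on `U`: `s` lifts `ψ`, and the `P`-valued defect of `s` is the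
`K*`-coboundary of `d` times the cyclic cocycle of `(β ^ p, b)`. -/
structure IsCoch (p : ℕ) (π : P →* Q) (ψ : G →* Q) (θ : π.ker →* Kˣ) (ζ β b : K)
    (U : Subgroup G) (s : G → P) (d : G → K) : Prop where
  lift : ∀ σ ∈ U, π (s σ) = ψ σ
  ne : ∀ σ ∈ U, d σ ≠ 0
  cont : ∃ N : Subgroup G, IsOpen (N : Set G) ∧ ∀ σ ∈ U, ∀ ν ∈ U, ν ∈ N →
    s (σ * ν) = s σ ∧ d (σ * ν) = d σ
  rel : ∀ σ ∈ U, ∀ τ ∈ U, ∀ i j : ℕ, i < p → j < p → σ • β = ζ ^ i * β → τ • β = ζ ^ j * β →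
    ∃ z : π.ker, s σ * s τ = z * s (σ * τ) ∧
      (θ z : K) * d (σ * τ) = d σ * σ • d τ * (if p ≤ i + j then b else 1)

end Pool.Agent.Helper58.GC
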