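import Pool.Agent.Helper58.GC.Basic

/-!
# GC-2a: construction of the cochain pair
-/

set_option autoImplicit false

namespace Pool.Agent.Helper58.GC

open Pool.Agent.Helper25.EC Pool.Agent.Helper59.EC Finset

variable {p : ℕ} {K G P Q : Type} [Field K] [Group G]
  [MulSemiringAction G K] [Group P] [Group Q]

/-- The partial products `∏_{m = 1..j} τ^m ξ`. -/
noncomputable def eta (τ : G) (ξ : K) (j : ℕ) : K := ∏ m ∈ range j, τ ^ (m + 1) • ξ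

theorem eta_zero (τ : G) (ξ : K) : eta τ ξ 0 = 1 := by simp [eta]

theorem eta_succ (τ : G) (ξ : K) (j : ℕ) : eta τ ξ (j + 1) = eta τ ξ j * τ ^ (j + 1) • ξ := by
  simp only [eta]; rw [prod_range_succ]

theorem eta_ne {τ : G} {ξ : K} (h : ξ ≠ 0) (j : ℕ) : eta τ ξ j ≠ 0 :=
  prod_ne_zero_iff.mpr fun _ _ => (smul_ne_zero_iff_ne _).mpr h

theorem eta_add (τ : G) (ξ : K) (i j : ℕ) :
    eta τ ξ (i + j) = eta τ ξ i * τ ^ i • eta τ ξ j := by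
  induction j with
  | zero => simp [eta_zero]
  | succ j ih =>
    rw [← add_assoc, eta_succ, ih, eta_succ, smul_mul', ← mul_smul, ← pow_add, mul_assoc]
    congr 3

variable {π : P →* Q} {θ : π.ker →* Kˣ} {ψ : G →* Q} {ζ β : K} {U : Subgroup G} {τ : G}
  {f : G → P} {t : P} {ξ : K}

/-- The basic data without `ξ`. -/
structure Dat0 (p : ℕ) (π : P →* Q) (θ : π.ker →* Kˣ) (ψ : G →* Q) (ζ β : K) (U : Subgroup G)
    (τ : G) (f : G → P) (t : P) : Prop where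
  pos : 0 < p
  prim : IsPrimitiveRoot ζ p
  fixζ : ∀ g : G, g • ζ = ζ
  cen : π.ker ≤ Subgroup.center P
  inj : Function.Injective θ
  thp : ∀ z, θ z ^ p = 1
  β0 : β ≠ 0
  βp : ∀ g ∈ U, g • (β ^ p) = β ^ p
  hτ : τ ∈ U
  hτβ : τ • β = ζ * β
  mul : ∀ σ ∈ U ⊓ MulAction.stabilizer G β, ∀ τ ∈ U ⊓ MulAction.stabilizer G β,
    f (σ * τ) = f σ * f τ
  lift : ∀ σ ∈ U ⊓ MulAction.stabilizer G β, π (f σ) = ψ σ
  ht : π t = ψ τ

namespace Dat0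

variable (Dt : Dat0 p π θ ψ ζ β U τ f t)

include Dt

theorem ζ0 : ζ ≠ 0 := Dt.prim.ne_zero Dt.pos.ne'

theorem comm {z x : P} (hz : z ∈ π.ker) : z * x = x * z :=
  ((Subgroup.mem_center_iff.mp (Dt.cen hz)) x).symm

theorem smul_th (g : G) (x : P) : g • th π θ x = th π θ x :=
  smul_mu Dt.pos Dt.prim Dt.fixζ (th_pow Dt.thp x) g

theorem τβ (j : ℕ) : (τ ^ j) • β = ζ ^ j * β := idx_pow Dt.fixζ Dt.hτβ j

theorem conj_mem {u : G} (hu : u ∈ U ⊓ MulAction.stabilizer G β) (j : ℕ) :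
    (τ ^ j)⁻¹ * u * τ ^ j ∈ U ⊓ MulAction.stabilizer G β :=
  ⟨U.mul_mem (U.mul_mem (U.inv_mem (U.pow_mem Dt.hτ j)) hu.1) (U.pow_mem Dt.hτ j),
    conj_fix Dt.fixζ Dt.ζ0 (Dt.τβ j) hu.2⟩

theorem conj_mem' {u : G} (hu : u ∈ U ⊓ MulAction.stabilizer G β) :
    τ * u * τ⁻¹ ∈ U ⊓ MulAction.stabilizer G β :=
  ⟨U.mul_mem (U.mul_mem Dt.hτ hu.1) (U.inv_mem Dt.hτ),
    conj_fix' Dt.fixζ (i := 1) Dt.ζ0 (by rw [pow_one]; exact Dt.hτβ) hu.2⟩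

theorem pow_mem : τ ^ p ∈ U ⊓ MulAction.stabilizer G β :=
  ⟨U.pow_mem Dt.hτ p, by
    show (τ ^ p) • β = β
    rw [Dt.τβ, Dt.prim.pow_eq_one, one_mul]⟩

theorem z_mem {u : G} (hu : u ∈ U ⊓ MulAction.stabilizer G β) :
    (f u)⁻¹ * t⁻¹ * f (τ * u * τ⁻¹) * t ∈ π.ker := by
  rw [MonoidHom.mem_ker]
  simp only [map_mul, map_inv, Dt.lift _ hu, Dt.lift _ (Dt.conj_mem' hu), Dt.ht]
  group

theorem z_mul {u v : G} (hu : u ∈ U ⊓ MulAction.stabilizer G β)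
    (hv : v ∈ U ⊓ MulAction.stabilizer G β) :
    (f (u * v))⁻¹ * t⁻¹ * f (τ * (u * v) * τ⁻¹) * t
      = ((f u)⁻¹ * t⁻¹ * f (τ * u * τ⁻¹) * t) * ((f v)⁻¹ * t⁻¹ * f (τ * v * τ⁻¹) * t) := by
  have e1 : τ * (u * v) * τ⁻¹ = (τ * u * τ⁻¹) * (τ * v * τ⁻¹) := by group
  rw [e1, Dt.mul _ hu _ hv, Dt.mul _ (Dt.conj_mem' hu) _ (Dt.conj_mem' hv)]
  have hz := Dt.z_mem hu
  set z : P := (f u)⁻¹ * t⁻¹ * f (τ * u * τ⁻¹) * t with hz'
  have e2 : (f u * f v)⁻¹ * t⁻¹ * (f (τ * u * τ⁻¹) * f (τ * v * τ⁻¹)) * t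
      = (f v)⁻¹ * z * (t⁻¹ * f (τ * v * τ⁻¹) * t) := by rw [hz']; group
  rw [e2, ← Dt.comm hz]
  group

/-- `τ^i` times an element of `U'`. -/
theorem decomp {σ : G} (hσ : σ ∈ U) {i : ℕ} (hi : σ • β = ζ ^ i * β) :
    (τ ^ i)⁻¹ * σ ∈ U ⊓ MulAction.stabilizer G β := by
  refine ⟨U.mul_mem (U.inv_mem (U.pow_mem Dt.hτ i)) hσ, ?_⟩
  show ((τ ^ i)⁻¹ * σ) • β = β
  rw [mul_smul, hi, smul_mul', smul_zeta_pow Dt.fixζ, idx_inv Dt.fixζ Dt.ζ0 (Dt.τβ i),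
    mul_inv_cancel_left₀ (pow_ne_zero _ Dt.ζ0)]

end Dat0

/-- The basic data. -/
structure Dat (p : ℕ) (π : P →* Q) (θ : π.ker →* Kˣ) (ψ : G →* Q) (ζ β : K) (U : Subgroup G)
    (τ : G) (f : G → P) (t : P) (ξ : K) : Prop extends Dat0 p π θ ψ ζ β U τ f t where
  ξ0 : ξ ≠ 0
  hξ : ∀ u ∈ U ⊓ MulAction.stabilizer G β,
    th π θ ((f u)⁻¹ * t⁻¹ * f (τ * u * τ⁻¹) * t) * ξ = u • ξ

namespace Dat

variable (Dt : Dat p π θ ψ ζ β U τ f t ξ)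

include Dt

/-- formula (A). -/
theorem keyA (j : ℕ) : ∀ u ∈ U ⊓ MulAction.stabilizer G β, ∃ w ∈ π.ker,
    f u = t ^ j * f ((τ ^ j)⁻¹ * u * τ ^ j) * (t ^ j)⁻¹ * w ∧
      th π θ w * eta τ ξ j = u • eta τ ξ j := by
  induction j with
  | zero =>
    intro u hu
    refine ⟨1, one_mem _, by simp, by rw [eta_zero, th_one, smul_one, mul_one]⟩
  | succ j ih =>
    intro u hu
    obtain ⟨w, hw, h1, h2⟩ := ih u hu
    set v : G := (τ ^ (j + 1))⁻¹ * u * τ ^ (j + 1) with hv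
    have hvm := Dt.conj_mem hu (j + 1)
    rw [← hv] at hvm
    set z : P := (f v)⁻¹ * t⁻¹ * f (τ * v * τ⁻¹) * t with hz
    have hzk : z ∈ π.ker := Dt.z_mem hvm
    have hconj : τ * v * τ⁻¹ = (τ ^ j)⁻¹ * u * τ ^ j := by
      rw [hv, pow_succ]; group
    have h3 : f ((τ ^ j)⁻¹ * u * τ ^ j) = t * f v * z * t⁻¹ := by
      rw [← hconj, hz]; group
    refine ⟨z * w, mul_mem hzk hw, ?_, ?_⟩
    · rw [h1, h3]
      have e1 : t ^ j * (t * f v * z * t⁻¹) * (t ^ j)⁻¹ * w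
          = t ^ j * t * f v * (z * (t⁻¹ * (t ^ j)⁻¹)) * w := by group
      rw [e1, Dt.comm hzk, pow_succ]
      group
    · rw [th_mul hzk hw, eta_succ, smul_mul', ← h2]
      have h4 := congrArg (fun x => τ ^ (j + 1) • x) (Dt.hξ v hvm)
      simp only [smul_mul', Dt.smul_th, ← mul_smul] at h4
      have h5 : τ ^ (j + 1) * v = u * τ ^ (j + 1) := by rw [hv]; group
      rw [h5] at h4
      rw [← mul_smul, ← h4]
      ring

/-- `ε = t ^ p * ψ' (τ ^ p)⁻¹`. -/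
theorem eps_mem : t ^ p * (f (τ ^ p))⁻¹ ∈ π.ker := by
  rw [MonoidHom.mem_ker]
  simp only [map_mul, map_pow, map_inv, Dt.lift _ Dt.pow_mem, Dt.ht, mul_inv_cancel]

theorem eta_p_fix {u : G} (hu : u ∈ U ⊓ MulAction.stabilizer G β) :
    u • eta τ ξ p = eta τ ξ p := by
  obtain ⟨w, hw, h1, h2⟩ := Dt.keyA p u hu
  have hp := Dt.pow_mem
  have h3 : f ((τ ^ p)⁻¹ * u * τ ^ p) = (f (τ ^ p))⁻¹ * f u * f (τ ^ p) := by
    rw [Dt.mul _ (mul_mem (inv_mem hp) hu) _ hp, Dt.mul _ (inv_mem hp) _ hu,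
      map_inv_of Dt.mul hp]
  set e : P := t ^ p * (f (τ ^ p))⁻¹ with he
  have hek : e ∈ π.ker := Dt.eps_mem
  have h4 : t ^ p = e * f (τ ^ p) := by rw [he]; group
  have h5 : t ^ p * f ((τ ^ p)⁻¹ * u * τ ^ p) * (t ^ p)⁻¹ = f u := by
    rw [h3, h4, Dt.comm hek]
    have : f (τ ^ p) * e * ((f (τ ^ p))⁻¹ * f u * f (τ ^ p)) * (f (τ ^ p) * e)⁻¹
        = f (τ ^ p) * (e * ((f (τ ^ p))⁻¹ * f u)) * (f (τ ^ p) * e * (f (τ ^ p))⁻¹)⁻¹ := by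
      group
    rw [this, Dt.comm hek, ← Dt.comm hek (x := f (τ ^ p))]
    group
  rw [h5] at h1
  have h6 : w = 1 := by
    have := h1.symm
    rwa [mul_eq_left] at this
  rw [h6, th_one, one_mul] at h2
  exact h2.symm

theorem z_τp : (f (τ ^ p))⁻¹ * t⁻¹ * f (τ * τ ^ p * τ⁻¹) * t = 1 := by
  have h1 : τ * τ ^ p * τ⁻¹ = τ ^ p := by
    rw [← pow_succ', pow_succ]; group
  set e : P := t ^ p * (f (τ ^ p))⁻¹ with he
  have hek : e ∈ π.ker := Dt.eps_mem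
  have h2 : f (τ ^ p) = e⁻¹ * t ^ p := by rw [he]; group
  rw [h1, h2]
  have h3 : t⁻¹ * (e⁻¹ * t ^ p) * t = e⁻¹ * t ^ p := by
    have : t⁻¹ * e⁻¹ = e⁻¹ * t⁻¹ := (Dt.comm (inv_mem hek)).symm
    rw [← mul_assoc, this]
    group
  rw [mul_assoc, mul_assoc, ← mul_assoc t⁻¹, h3, inv_mul_cancel]

theorem eta_p_τ : τ • eta τ ξ p = eta τ ξ p := by
  have h1 : eta τ ξ (1 + p) = eta τ ξ 1 * τ ^ 1 • eta τ ξ p := eta_add τ ξ 1 p
  have h2 : eta τ ξ (p + 1) = eta τ ξ p * τ ^ (p + 1) • ξ := eta_succ τ ξ p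
  have h3 : eta τ ξ 1 = τ • ξ := by rw [← zero_add 1, eta_succ, eta_zero]; simp
  have h4 : τ ^ (p + 1) • ξ = τ • ξ := by
    rw [pow_succ', mul_smul]
    have := Dt.hξ _ Dt.pow_mem
    rw [Dt.z_τp, th_one, one_mul] at this
    rw [← this]
  rw [add_comm 1 p, h2, h3, pow_one, h4, mul_comm] at h1
  exact (mul_left_cancel₀ ((smul_ne_zero_iff_ne _).mpr Dt.ξ0) h1).symm

theorem eta_p_U {g : G} (hg : g ∈ U) : g • eta τ ξ p = eta τ ξ p := by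
  obtain ⟨i, -, hi⟩ := exists_idx Dt.pos Dt.prim Dt.β0 Dt.βp hg
  have h1 := Dt.eta_p_fix (Dt.decomp hg hi)
  have h2 : ∀ i : ℕ, τ ^ i • eta τ ξ p = eta τ ξ p := by
    intro i
    induction i with
    | zero => simp
    | succ n ih => rw [pow_succ, mul_smul, Dt.eta_p_τ, ih]
  have h3 : g = τ ^ i * ((τ ^ i)⁻¹ * g) := by group
  rw [h3, mul_smul, h1, h2]

end Dat

open scoped Classical in
/-- index of an element of the form `ζ^i β`. -/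
noncomputable def Ix (p : ℕ) (ζ β : K) (y : K) : ℕ :=
  if h : ∃ i < p, y = ζ ^ i * β then h.choose else 0

theorem Ix_eq {ζ β : K} (hζ : IsPrimitiveRoot ζ p) (hβ0 : β ≠ 0) {y : K} {i : ℕ} (hi : i < p)
    (h : y = ζ ^ i * β) : Ix p ζ β y = i := by
  have hex : ∃ i < p, y = ζ ^ i * β := ⟨i, hi, h⟩
  unfold Ix
  rw [dif_pos hex]
  have h2 := hex.choose_spec
  exact hζ.pow_inj h2.1 hi (mul_right_cancel₀ hβ0 (h2.2.symm.trans h))

variable [TopologicalSpace G]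

theorem exists_coch_of [IsTopologicalGroup G] 
    (h90 : ∀ (D : Subgroup G) (f : G → K) (N : Subgroup G), IsOpen (N : Set G) →
      (∀ σ ∈ D, f σ ≠ 0) → (∀ σ ∈ D, ∀ ν ∈ D, ν ∈ N → f (σ * ν) = f σ) →
      (∀ σ ∈ D, ∀ τ ∈ D, f (σ * τ) = f σ * σ • f τ) → ∃ y : K, y ≠ 0 ∧ ∀ σ ∈ D, f σ * σ • y = y)
    (Fr : Frame p K G) {ζ : K} (hζ : IsPrimitiveRoot ζ p) (hζG : ∀ g : G, g • ζ = ζ)
    (π : P →* Q) (hπ : Function.Surjective π) (hcen : π.ker ≤ Subgroup.center P)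
    (θ : π.ker →* Kˣ) (hθ : Function.Injective θ) (hθp : ∀ z, θ z ^ p = 1)
    (ψ : G →* Q) (U : Subgroup G) {β : K} (hβ0 : β ≠ 0)
    (hβ : ∀ g ∈ U, g • (β ^ p) = β ^ p) {τ : G} (hτ : τ ∈ U) (hτβ : τ • β = ζ * β)
    (hl : LiftOn π ψ (U ⊓ MulAction.stabilizer G β)) :
    ∃ (b : K) (s : G → P) (d : G → K), b ≠ 0 ∧ (∀ g ∈ U, g • b = b) ∧
      IsCoch p π ψ θ ζ β b U s d := by
  obtain ⟨f, N, hN, hmul, hN1, hlift⟩ := hl
  obtain ⟨t, ht⟩ := hπ (ψ τ)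
  have D0 : Dat0 p π θ ψ ζ β U τ f t :=
    ⟨Fr.prime.pos, hζ, hζG, hcen, hθ, hθp, hβ0, hβ, hτ, hτβ, hmul, hlift, ht⟩
  -- Hilbert 90
  set N0 : Subgroup G := N ⊓ N.comap (MulAut.conj τ).toMonoidHom with hN0
  have hN0o : IsOpen (N0 : Set G) := by
    have h1 : IsOpen ((fun x : G => τ * x * τ⁻¹) ⁻¹' (N : Set G)) :=
      hN.preimage (by fun_prop)
    have h2 : (N0 : Set G) = (N : Set G) ∩ (fun x : G => τ * x * τ⁻¹) ⁻¹' (N : Set G) := by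
      ext x; simp [hN0]
    rw [h2]; exact hN.inter h1
  obtain ⟨y, hy0, hy⟩ := h90 (U ⊓ MulAction.stabilizer G β)
    (fun u => th π θ ((f u)⁻¹ * t⁻¹ * f (τ * u * τ⁻¹) * t)) N0 hN0o (fun σ _ => th_ne _)
    (by
      intro σ hσ ν hν hνN
      rw [D0.z_mul hσ hν]
      have h1 : f ν = 1 := hN1 ν hν hνN.1
      have h2 : f (τ * ν * τ⁻¹) = 1 := hN1 _ (D0.conj_mem' hν) hνN.2
      rw [h1, h2]
      congr 1
      group)
    (by
      intro σ hσ ρ hρ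
      rw [D0.z_mul hσ hρ, th_mul (D0.z_mem hσ) (D0.z_mem hρ), D0.smul_th])
  have Dt : Dat p π θ ψ ζ β U τ f t y⁻¹ := by
    refine ⟨D0, inv_ne_zero hy0, ?_⟩
    intro u hu
    have h1 := hy u hu
    have h2 : u • y ≠ 0 := (smul_ne_zero_iff_ne _).mpr hy0
    have h3 := th_ne (π := π) (θ := θ) ((f u)⁻¹ * t⁻¹ * f (τ * u * τ⁻¹) * t)
    rw [smul_inv'']
    apply eq_inv_of_mul_eq_one_left
    calc _ = (th π θ ((f u)⁻¹ * t⁻¹ * f (τ * u * τ⁻¹) * t) * u • y) * y⁻¹ := by ring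
      _ = 1 := by rw [h1, mul_inv_cancel₀ hy0]
  clear_value N0
  set ξ : K := y⁻¹ with hξ
  set e : P := t ^ p * (f (τ ^ p))⁻¹ with he
  have hek : e ∈ π.ker := Dt.eps_mem
  have hη0 : ∀ j, eta τ ξ j ≠ 0 := fun j => eta_ne Dt.ξ0 j
  set b : K := th π θ e / eta τ ξ p with hb
  have hidx : ∀ σ ∈ U, ∃ i < p, σ • β = ζ ^ i * β := fun σ hσ =>
    exists_idx Dt.pos hζ hβ0 hβ hσ
  refine ⟨b, fun σ => t ^ (Ix p ζ β (σ • β)) * f ((τ ^ (Ix p ζ β (σ • β)))⁻¹ * σ),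
    fun σ => eta τ ξ (Ix p ζ β (σ • β)), div_ne_zero (th_ne _) (hη0 _), ?_, ?_, ?_, ?_, ?_⟩
  · intro g hg
    rw [hb, div_eq_mul_inv, smul_mul', smul_inv'', Dt.eta_p_U hg, Dt.smul_th]
  · intro σ hσ
    obtain ⟨i, hi, hi2⟩ := hidx σ hσ
    simp only [Ix_eq hζ hβ0 hi hi2]
    rw [map_mul, map_pow, hlift _ (Dt.decomp hσ hi2), ht, map_mul, map_inv, map_pow]
    group
  · intro σ _
    exact hη0 _
  · refine ⟨N ⊓ MulAction.stabilizer G β, hN.inter (Fr.stab β), ?_⟩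
    intro σ hσ ν hν hνN
    have h1 : (σ * ν) • β = σ • β := by
      rw [mul_smul]
      congr 1
      exact hνN.2
    refine ⟨?_, by rw [h1]⟩
    rw [h1]
    obtain ⟨i, hi, hi2⟩ := hidx σ hσ
    rw [Ix_eq hζ hβ0 hi hi2, ← mul_assoc, hmul _ (Dt.decomp hσ hi2) ν ⟨hν, hνN.2⟩,
      hN1 ν ⟨hν, hνN.2⟩ hνN.1, mul_one]
  · intro σ hσ ρ hρ i j hi hj h1 h2
    have hσρ := idx_mul hζG h1 h2
    simp only [Ix_eq hζ hβ0 hi h1, Ix_eq hζ hβ0 hj h2]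
    set u : G := (τ ^ i)⁻¹ * σ with hu
    set u' : G := (τ ^ j)⁻¹ * ρ with hu'
    have hum := Dt.decomp hσ h1
    have hum' := Dt.decomp hρ h2
    rw [← hu] at hum
    rw [← hu'] at hum'
    obtain ⟨w, hw, hA1, hA2⟩ := Dt.keyA j u hum
    set v : G := (τ ^ j)⁻¹ * u * τ ^ j with hv
    have hvm := Dt.conj_mem hum j
    rw [← hv] at hvm
    have hss : t ^ i * f u * (t ^ j * f u') = w * (t ^ (i + j) * f v * f u') := by
      rw [hA1]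
      have e1 : t ^ i * (t ^ j * f v * (t ^ j)⁻¹ * w) * (t ^ j * f u')
          = t ^ i * t ^ j * f v * (t ^ j)⁻¹ * (w * (t ^ j * f u')) := by group
      rw [e1, Dt.comm hw, Dt.comm hw, pow_add]
      group
    have hdd : eta τ ξ i * σ • eta τ ξ j = th π θ w * eta τ ξ (i + j) := by
      have e1 : σ = τ ^ i * u := by rw [hu]; group
      rw [e1, mul_smul, ← hA2, smul_mul', Dt.smul_th, eta_add]
      ring
    by_cases hij : p ≤ i + j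
    · obtain ⟨r, hr⟩ := Nat.exists_eq_add_of_le hij
      have hrp : r < p := by omega
      have h3 : (σ * ρ) • β = ζ ^ r * β := by
        rw [hσρ, hr, pow_add, hζ.pow_eq_one, one_mul]
      rw [Ix_eq hζ hβ0 hrp h3, if_pos hij]
      refine ⟨⟨w * e, mul_mem hw hek⟩, ?_, ?_⟩
      · have e2 : (τ ^ r)⁻¹ * (σ * ρ) = τ ^ p * (v * u') := by
          have : τ ^ (i + j) = τ ^ (p + r) := by rw [hr]
          have e3 : (τ ^ r)⁻¹ = τ ^ p * (τ ^ (i + j))⁻¹ := by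
            rw [this, pow_add]; group
          rw [e3, hv, hu, hu', pow_add]; group
        rw [e2, Dt.mul _ Dt.pow_mem _ (mul_mem hvm hum'), Dt.mul _ hvm _ hum', hss, hr]
        have e4 : f (τ ^ p) = e⁻¹ * t ^ p := by rw [he]; group
        rw [e4]
        show _ = w * e * _
        have e5 : w * e * (t ^ r * (e⁻¹ * t ^ p * (f v * f u')))
            = w * (e * (t ^ r * e⁻¹)) * (t ^ p * (f v * f u')) := by group
        rw [e5, Dt.comm hek, add_comm p r, pow_add]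
        group
      · rw [← th_coe]
        show th π θ (w * e) * _ = _
        rw [th_mul hw hek, hdd, hr, add_comm p r, eta_add]
        have e6 : τ ^ r • eta τ ξ p = eta τ ξ p := Dt.eta_p_U (U.pow_mem hτ r)
        rw [e6, hb]
        field_simp [hη0 p]
    · rw [not_le] at hij
      rw [Ix_eq hζ hβ0 hij hσρ, if_neg (not_le.mpr hij), mul_one]
      refine ⟨⟨w, hw⟩, ?_, ?_⟩
      · have e2 : (τ ^ (i + j))⁻¹ * (σ * ρ) = v * u' := by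
          rw [hv, hu, hu', pow_add]; group
        rw [e2, Dt.mul _ hvm _ hum', hss]
        simp only [mul_assoc]
      · rw [← th_coe, hdd]

end Pool.Agent.Helper58.GC
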